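import Pool.Agent.H19.CyvB

set_option maxHeartbeats 400000

namespace Pool.Agent.Results.MP_086516_nt.Torus

open Finset

/-- `ζ_k = exp (2 π i / k)`. -/
noncomputable def zeta (k : ℕ) : ℂ := Complex.exp (2 * Real.pi * Complex.I / k)

/-- The coefficient vectors, in the basis `1, ζ_k, …, ζ_k ^ (φ k - 1)`, of the `k`-th roots of unity. -/
def A (k : ℕ) : Set (Fin (Nat.totient k) → ℤ) :=
  {a | (∑ j, (a j : ℂ) * zeta k ^ (j : ℕ)) ^ k = 1}

/-- The Laurent polynomial `F_k`, evaluated at `x`. -/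
noncomputable def F (k : ℕ) (x : Fin (Nat.totient k) → ℂ) : ℂ := ∑ᶠ a ∈ A k, ∏ j, x j ^ a j

theorem result (k : ℕ) (hk : 1 ≤ k) :
    (A k).ncard = k ∧ ∃ (x₀ : ℂ) (x : Fin (Nat.totient k) → ℂ),
      ‖x₀‖ = 1 ∧ (∀ j, ‖x j‖ = 1) ∧ x₀ + F k x = 0 := by
  classical
  haveI : NeZero k := ⟨by omega⟩
  have hp : IsPrimitiveRoot (zeta k) k := Complex.isPrimitiveRoot_exp k (by omega)
  choose a ha using Pool.Agent.H19.Cyv.exi (k := k) hk
  have ha' : ∀ i, ∑ j, (a i j : ℂ) * zeta k ^ (j : ℕ) = zeta k ^ i := ha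
  have hA : A k = a '' (range k : Set ℕ) := by
    ext b
    constructor
    · intro hb
      obtain ⟨i, hi, hib⟩ := hp.eq_pow_of_pow_eq_one hb
      exact ⟨i, by simpa using hi, Pool.Agent.H19.Cyv.uniq hk _ _ ((ha i).trans hib)⟩
    · rintro ⟨i, -, rfl⟩
      show (∑ j, (a i j : ℂ) * zeta k ^ (j : ℕ)) ^ k = 1
      rw [ha', ← pow_mul, mul_comm, pow_mul, hp.pow_eq_one, one_pow]
  have hinj : Set.InjOn a (range k : Set ℕ) := by
    intro i hi j hj hij
    refine hp.pow_inj (by simpa using hi) (by simpa using hj) ?_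
    rw [← ha' i, ← ha' j, hij]
  have hF : ∀ x, F k x = ∑ i ∈ range k, ∏ j, x j ^ a i j := fun x => by
    rw [F, hA, finsum_mem_image hinj, finsum_mem_coe_finset]
  refine ⟨by rw [hA, hinj.ncard_image, Set.ncard_coe_finset, card_range], ?_⟩
  suffices h : ∃ x : Fin (Nat.totient k) → ℂ, (∀ j, ‖x j‖ = 1) ∧ ‖F k x‖ = 1 by
    obtain ⟨x, hx, h1⟩ := h
    exact ⟨-F k x, x, by simpa using h1, hx, by ring⟩
  rcases Nat.eq_or_lt_of_le hk with rfl | hk2
  · exact ⟨fun _ => 1, by simp, by simp [hF]⟩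
  obtain ⟨G, hper, hz, q, hq, -, hsum⟩ := Pool.Agent.H19.Cyv.existsG k hk2
  have hx : ∀ s : ℝ, F k (fun j => Complex.exp (Complex.I * (s * G j : ℝ))) =
      ∑ i ∈ range k, Complex.exp (Complex.I * (s * G i)) := by
    intro s
    rw [hF]
    refine sum_congr rfl fun i _ => ?_
    simp only [← Complex.exp_int_mul]
    rw [← Complex.exp_sum, ← Pool.Agent.H19.Cyv.keyG hk G hper hz (a i) i (ha i), mul_sum, mul_sum]
    congr 1
    refine sum_congr rfl fun j _ => ?_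
    push_cast
    ring
  have hc : Continuous fun s : ℝ => ‖∑ i ∈ range k, Complex.exp (Complex.I * (s * G i))‖ := by
    fun_prop
  have h1 : ‖∑ i ∈ range k, Complex.exp (Complex.I * (((1 : ℝ) : ℂ) * G i))‖ = 0 := by
    have := Pool.Agent.H19.Cyv.total hk (fun n => Complex.exp (Complex.I * (G n : ℂ)))
      (fun n => by simp only [hper]) q hq.pos _ hsum
    simp [this]
  have h0 : ‖∑ i ∈ range k, Complex.exp (Complex.I * (((0 : ℝ) : ℂ) * G i))‖ = k := by simp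
  obtain ⟨s, -, hs⟩ := intermediate_value_Icc' (zero_le_one (α := ℝ)) hc.continuousOn
    (show (1 : ℝ) ∈ Set.Icc _ _ from ⟨by rw [h1]; norm_num, by rw [h0]; exact_mod_cast hk⟩)
  exact ⟨fun j => Complex.exp (Complex.I * (s * G j : ℝ)),
    fun j => Complex.norm_exp_I_mul_ofReal _, by rw [hx]; exact hs⟩

end Pool.Agent.Results.MP_086516_nt.Torus
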